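import Pool.Agent.V8H94.TV.Defs
import Pool.Agent.V8H94.VT.Gen2

/-!
# Generalised eigenspaces of powers of an endomorphism
-/

set_option autoImplicit false

namespace Pool.Agent.V8H77.CW

open Module Pool.Agent.V8H94.TV Pool.Agent.V8H94.VT

variable {K : Type} [Field K] {E : Type} [AddCommGroup E] [Module K E]

theorem isGen_iff (G : E →ₗ[K] E) (a : K) (x : E) :
    IsGen G a x ↔ x ∈ Module.End.maxGenEigenspace G a := (gen_iff G a x).symm

theorem isGen_pow {G : E →ₗ[K] E} {a : K} {x : E} (h : IsGen G a x) (s : ℕ) :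
    IsGen (G ^ s) (a ^ s) x := by
  obtain ⟨k, hk⟩ := h
  exact ⟨k, gen_pow G s hk⟩

/-- The finitely many eigenvalues which are a power of `q` times a root of unity. -/
theorem exists_common {q : K} (hq0 : q ≠ 0) (hq : ∀ s : ℕ, 0 < s → q ^ s ≠ 1) {A : Set K}
    (hA : A.Finite) : ∃ s₀ : ℕ, 0 < s₀ ∧ ∀ a ∈ A, ∀ s k : ℕ, 0 < s → a ^ s = q ^ (k * s) →
      a ^ s₀ = q ^ (k * s₀) := by
  induction A, hA using Set.Finite.induction_on with
  | empty => exact ⟨1, one_pos, by simp⟩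
  | @insert a A _ _ ih =>
    obtain ⟨s₁, hs₁, h₁⟩ := ih
    by_cases h : ∃ s k : ℕ, 0 < s ∧ a ^ s = q ^ (k * s)
    · obtain ⟨s, k, hs, hsk⟩ := h
      refine ⟨s₁ * s, Nat.mul_pos hs₁ hs, ?_⟩
      intro b hb s' k' hs' hb'
      rcases hb with rfl | hb
      · -- the exponent is unique
        have hkk : k = k' := by
          have e1 : q ^ (k * (s * s')) = q ^ (k' * (s * s')) := by
            calc q ^ (k * (s * s')) = (q ^ (k * s)) ^ s' := by rw [← pow_mul]; ring_nf
              _ = (b ^ s') ^ s := by rw [← hsk, ← pow_mul, ← pow_mul, mul_comm]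
              _ = q ^ (k' * (s * s')) := by rw [hb', ← pow_mul]; ring_nf
          have hss : 0 < s * s' := Nat.mul_pos hs hs'
          by_contra hne
          rcases Nat.lt_or_gt_of_ne hne with hlt | hlt
          · obtain ⟨d, rfl⟩ := Nat.exists_eq_add_of_lt hlt
            have e2 : (k + d + 1) * (s * s') = k * (s * s') + (d + 1) * (s * s') := by ring
            rw [e2, pow_add] at e1
            have e3 : q ^ ((d + 1) * (s * s')) = 1 :=
              (mul_eq_left₀ (pow_ne_zero _ hq0)).1 e1.symm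
            exact hq _ (Nat.mul_pos (Nat.succ_pos d) hss) e3
          · obtain ⟨d, rfl⟩ := Nat.exists_eq_add_of_lt hlt
            have e2 : (k' + d + 1) * (s * s') = k' * (s * s') + (d + 1) * (s * s') := by ring
            rw [e2, pow_add] at e1
            have e3 : q ^ ((d + 1) * (s * s')) = 1 :=
              (mul_eq_left₀ (pow_ne_zero _ hq0)).1 e1
            exact hq _ (Nat.mul_pos (Nat.succ_pos d) hss) e3
        subst hkk
        rw [mul_comm s₁ s, pow_mul, hsk, ← pow_mul, mul_assoc]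
      · rw [pow_mul, h₁ b hb s' k' hs' hb', ← pow_mul, mul_assoc]
    · refine ⟨s₁, hs₁, ?_⟩
      intro b hb s' k' hs' hb'
      rcases hb with rfl | hb
      · exact absurd ⟨s', k', hs', hb'⟩ h
      · exact h₁ b hb s' k' hs' hb'

/-- All classes which are generalised Tate classes over some finite extension are so over one. -/
theorem exists_level [IsAlgClosed K] [FiniteDimensional K E] (F : E →ₗ[K] E) {q : K}
    (hq0 : q ≠ 0) (hq : ∀ s : ℕ, 0 < s → q ^ s ≠ 1) : ∃ s₀ : ℕ, 0 < s₀ ∧ ∀ s k : ℕ, 0 < s →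
      ∀ x : E, IsGen (F ^ s) (q ^ (k * s)) x → IsGen (F ^ s₀) (q ^ (k * s₀)) x := by
  have hfin : {a : K | Module.End.HasEigenvalue F a}.Finite := Module.End.finite_hasEigenvalue F
  obtain ⟨s₀, hs₀, h₀⟩ := exists_common hq0 hq hfin
  refine ⟨s₀, hs₀, ?_⟩
  intro s k hs x hx
  obtain ⟨n, hn⟩ := hx
  let P : Set E := {x | x ∈ (⊤ : Submodule K E) ∧ ∃ (a : K) (k : ℕ),
      ((F - a • LinearMap.id) ^ k : E →ₗ[K] E) x = 0 ∧ ∃ y ∈ (⊤ : Submodule K E), y ≠ 0 ∧
        F y = a • y}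
  have hP : Submodule.span K P = ⊤ :=
    top_le_iff.1 (le_span_gen F ⊤ fun _ _ => Submodule.mem_top)
  have h1 := mem_span_of_gen (F ^ s) P hP (by
    rintro y ⟨-, a, l, hl, -⟩
    exact ⟨a ^ s, l, gen_pow F s hl⟩) _ n x hn
  rw [isGen_iff]
  refine Submodule.span_le.2 ?_ h1
  rintro y ⟨⟨-, a, l, hl, z, -, hz0, hz⟩, l', hl'⟩
  rw [SetLike.mem_coe, ← isGen_iff]
  by_cases hy : y = 0
  · exact ⟨0, by rw [hy, map_zero]⟩
  have h2 : a ^ s = q ^ (k * s) := gen_unique (F ^ s) (gen_pow F s hl) hl' hy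
  have h3 := h₀ a (Module.End.hasEigenvalue_of_hasEigenvector
    ⟨Module.End.mem_eigenspace_iff.2 hz, hz0⟩) s k hs h2
  rw [← h3]
  exact ⟨l, gen_pow F s₀ hl⟩

end Pool.Agent.V8H77.CW
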